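import Pool.Agent.Lib.MP_acafa7_al.F.H22.Key
import Pool.Agent.Lib.MP_acafa7_al.F.H72.Sper
import Pool.Agent.Lib.MP_acafa7_al.MS.H64.Wk

/-! KEY1: the fixed rainbow simplex for one parameter (PaperF 7.1 (b)-(d)). -/

namespace MSG.F76

open Classical

section dist

variable {V : Type} {G : SimpleGraph V} {H : Type} [Group H] [MulAction H V]

theorem fj_smul (hc : G.Connected) (ha : Aut G H) (q : ℕ → V) (a b : ℕ) (hab : a ≤ b) (h : H)
    (x : V) : fj G H q a b (h • x) = fj G H q a b x := by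
  have h1 := F22.fj_lip hc ha q a b hab (h • x) x
  have h2 := F22.fj_lip hc ha q a b hab x (h • x)
  have h3 := F22.dH_le (G := G) (H := H) (h • x) x h
  have h4 := F22.dH_le (G := G) (H := H) x (h • x) h⁻¹
  rw [SimpleGraph.dist_self] at h3
  rw [inv_smul_smul, SimpleGraph.dist_self] at h4
  omega

theorem fj_le (q : ℕ → V) {a b i : ℕ} (h1 : a ≤ i) (h2 : i ≤ b) (x : V) :
    fj G H q a b x ≤ G.dist x (q i) :=
  Nat.sInf_le ⟨i, h1, h2, 1, by rw [one_smul]⟩

theorem fj_adj (hc : G.Connected) (ha : Aut G H) (q : ℕ → V) {a b : ℕ} (hab : a ≤ b) {x y : V}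
    (hxy : G.Adj x y) : fj G H q a b x ≤ fj G H q a b y + 1 := by
  have h1 := F22.fj_lip hc ha q a b hab x y
  have h2 := F22.dH_le (G := G) (H := H) x y 1
  rw [one_smul, SimpleGraph.dist_eq_one_iff_adj.2 hxy] at h2
  omega

theorem fj_near (hc : G.Connected) {c n : ℕ} {q : ℕ → V}
    (hfix : ∀ i, i ≤ n → Dp G H (q i) c) {a b : ℕ} (hab : a ≤ b) (hb : b ≤ n) (x : V) :
    ∃ i, a ≤ i ∧ i ≤ b ∧ G.dist x (q i) ≤ fj G H q a b x + c := by
  obtain ⟨i, h1, h2, h, hh⟩ := F22.fj_spec (G := G) (H := H) q a b hab x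
  refine ⟨i, h1, h2, ?_⟩
  have h3 := hfix i (by omega) h
  have h4 := hc.dist_triangle (u := x) (v := h • q i) (w := q i)
  rw [SimpleGraph.dist_comm] at h3
  omega

/-- no point is near all three parts -/
theorem no_three (hc : G.Connected) {C c k n : ℕ} {q : ℕ → V} {β : ℕ → List V} {i₁ i₂ : ℕ}
    (hP : Pol G H C c k n q β i₁ i₂) {E : ℕ} (hE : E = (3 * C + 2) * k) (x : V)
    (h0 : fj G H q 0 i₁ x + c ≤ 8 * E) (h1 : fj G H q i₁ i₂ x + c ≤ 8 * E)
    (h2 : fj G H q i₂ n x + c ≤ 8 * E) : False := by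
  have hE8 : 8 * (3 * C + 2) * k = 8 * E := by rw [hE]; ring
  have l1 := hP.le1
  have l2 := hP.le2
  obtain ⟨a, a1, a2, a3⟩ := fj_near (H := H) hc hP.fix (Nat.zero_le i₁) (by omega) x
  obtain ⟨b, b1, b2, b3⟩ := fj_near (H := H) hc hP.fix l1 l2 x
  obtain ⟨e, e1, e2, e3⟩ := fj_near (H := H) hc hP.fix l2 (le_refl n) x
  exact hP.nt x a b e a2 b1 b2 e1 e2 (by omega) (by omega) (by omega)

end dist

section fibres

variable {V : Type} {G : SimpleGraph V} {H : Type} [Group H] [MulAction H V] {Y : Type}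

/-- minimum of `fj` over a fibre -/
noncomputable def Fy (G : SimpleGraph V) (H : Type) [Group H] [MulAction H V] (S : Set V)
    (π : V → Y) (q : ℕ → V) (a b : ℕ) (A : Y) : ℕ :=
  sInf {m | ∃ x ∈ S, π x = A ∧ fj G H q a b x = m}

theorem Fy_le {S : Set V} {π : V → Y} {q : ℕ → V} {a b : ℕ} {x : V} (hx : x ∈ S) :
    Fy G H S π q a b (π x) ≤ fj G H q a b x :=
  Nat.sInf_le ⟨x, hx, rfl, rfl⟩

theorem Fy_spec {S : Set V} {π : V → Y} {q : ℕ → V} {a b : ℕ} {A : Y}
    (hA : ∃ x ∈ S, π x = A) : ∃ x ∈ S, π x = A ∧ fj G H q a b x = Fy G H S π q a b A := by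
  obtain ⟨x, hx, hxA⟩ := hA
  exact Nat.sInf_mem (s := {m | ∃ x ∈ S, π x = A ∧ fj G H q a b x = m}) ⟨_, x, hx, hxA, rfl⟩

theorem le_Fy (hc : G.Connected) (ha : Aut G H) {S : Set V} {π : V → Y} {ρ : V → ℕ}
    {ct : Y → V} (hct : ∀ y ∈ S, dH G H (ct (π y)) y ≤ ρ (ct (π y))) {q : ℕ → V} {a b : ℕ}
    (hab : a ≤ b) {x : V} (hx : x ∈ S) :
    fj G H q a b x ≤ Fy G H S π q a b (π x) + 2 * ρ (ct (π x)) := by
  obtain ⟨y, hy, hyA, hyF⟩ := Fy_spec (G := G) (H := H) (S := S) (π := π) (q := q) (a := a)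
    (b := b) (A := π x) ⟨x, hx, rfl⟩
  have h1 := F22.fj_lip hc ha q a b hab x y
  have h2 := F22.dH_tri hc ha x (ct (π x)) y
  have h3 := hct x hx
  have h4 := hct y hy
  rw [hyA] at h4
  rw [F22.dH_symm hc ha (ct (π x)) x] at h3
  omega

variable [MulAction H Y]

theorem Fy_inv_le (hc : G.Connected) (ha : Aut G H) {S : Set V} {π : V → Y} {col : Y → ℕ}
    (hCM : CM G H S π col) (hsur : ∀ v : Y, ∃ x ∈ S, π x = v) {q : ℕ → V} {a b : ℕ}
    (hab : a ≤ b) (h : H) (A : Y) : Fy G H S π q a b (h • A) ≤ Fy G H S π q a b A := by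
  obtain ⟨x, hx, hxA, hxF⟩ := Fy_spec (G := G) (H := H) (q := q) (a := a) (b := b) (hsur A)
  have h1 := Fy_le (G := G) (H := H) (π := π) (q := q) (a := a) (b := b) (hCM.inv h x hx)
  rw [hCM.eqv h x hx, hxA, fj_smul hc ha q a b hab, hxF] at h1
  exact h1

theorem Fy_inv (hc : G.Connected) (ha : Aut G H) {S : Set V} {π : V → Y} {col : Y → ℕ}
    (hCM : CM G H S π col) (hsur : ∀ v : Y, ∃ x ∈ S, π x = v) {q : ℕ → V} {a b : ℕ}
    (hab : a ≤ b) (h : H) (A : Y) : Fy G H S π q a b (h • A) = Fy G H S π q a b A := by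
  refine le_antisymm (Fy_inv_le hc ha hCM hsur hab h A) ?_
  have h1 := Fy_inv_le hc ha hCM hsur (q := q) hab h⁻¹ (h • A)
  rwa [inv_smul_smul] at h1

end fibres

section label

variable {Y : Type}

/-- the label -/
noncomputable def lam (F0 F1 F2 : Y → ℕ) (t₁ t₂ : ℕ) (A : Y) : ℕ :=
  if F0 A ≤ F1 A + t₁ ∧ F0 A ≤ F2 A + t₂ then 0 else if F1 A + t₁ ≤ F2 A + t₂ then 1 else 2

theorem lam_le (F0 F1 F2 : Y → ℕ) (t₁ t₂ : ℕ) (A : Y) : lam F0 F1 F2 t₁ t₂ A ≤ 2 := by
  unfold lam
  split_ifs <;> omega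

theorem lam_zero {F0 F1 F2 : Y → ℕ} {t₁ t₂ : ℕ} {A : Y} (h : lam F0 F1 F2 t₁ t₂ A = 0) :
    F0 A ≤ F1 A + t₁ ∧ F0 A ≤ F2 A + t₂ := by
  unfold lam at h
  split_ifs at h with h1 h2
  exact h1

theorem lam_one {F0 F1 F2 : Y → ℕ} {t₁ t₂ : ℕ} {A : Y} (h : lam F0 F1 F2 t₁ t₂ A = 1) :
    F1 A + t₁ < F0 A ∧ F1 A + t₁ ≤ F2 A + t₂ := by
  unfold lam at h
  split_ifs at h with h1 h2 <;> omega

theorem lam_two {F0 F1 F2 : Y → ℕ} {t₁ t₂ : ℕ} {A : Y} (h : lam F0 F1 F2 t₁ t₂ A = 2) :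
    F2 A + t₂ < F0 A ∧ F2 A + t₂ < F1 A + t₁ := by
  unfold lam at h
  split_ifs at h with h1 h2 <;> omega

end label

section walks

variable {V : Type} {G : SimpleGraph V}

theorem catN_ne (β : ℕ → List V) (x : V) (n : ℕ) : catN β x n ≠ [] := by
  induction n with
  | zero => simp [catN]
  | succ n ih =>
    intro h
    have h1 : catN β x n ++ (β n).tail = [] := h
    exact ih (List.append_eq_nil_iff.1 h1).1

theorem catN_add (β : ℕ → List V) (x y : V) (i m : ℕ) :
    catN β x (i + m) = cat (catN β x i) (catN (fun j => β (i + j)) y m) := by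
  induction m with
  | zero => exact (F72.cat_last _ _).symm
  | succ m ih =>
    show cat (catN β x (i + m)) (β (i + m)) =
      cat (catN β x i) (cat (catN (fun j => β (i + j)) y m) (β (i + m)))
    rw [ih, F72.cat_assoc' _ _ _ (catN_ne _ _ _)]

theorem mem_catN {β : ℕ → List V} {x v : V} {m : ℕ} (h : v ∈ catN β x m) :
    v = x ∨ ∃ j, j < m ∧ v ∈ β j := by
  induction m with
  | zero =>
    left
    simpa [catN] using h
  | succ m ih =>
    have h1 : v ∈ cat (catN β x m) (β m) := h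
    rcases F72.mem_cat' h1 with h2 | h2
    · rcases ih h2 with h3 | ⟨j, hj, h3⟩
      · exact Or.inl h3
      · exact Or.inr ⟨j, by omega, h3⟩
    · exact Or.inr ⟨m, by omega, h2⟩

theorem pair_adj {x y u v : V} {l : List V} (hl : IsW G x y l) (h : [u, v] <:+: l) :
    G.Adj u v ∧ u ∈ l ∧ v ∈ l := by
  have h2 := h.subset
  obtain ⟨s, t, rfl⟩ := h
  have h1 := hl.chain
  rw [List.isChain_append, List.isChain_append] at h1
  exact ⟨by simpa using h1.1.2.1, h2 (by simp), h2 (by simp)⟩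

/-- `v` is in `cat l m` if it is in `l` or in `m` (walks) -/
theorem mem_cat_of {x y z v : V} {l m : List V} (hl : IsW G x y l) (hm : IsW G y z m)
    (h : v ∈ l ∨ v ∈ m) : v ∈ cat l m := by
  rcases h with h | h
  · exact List.mem_append_left _ h
  · obtain ⟨t, rfl⟩ := F72.isW_cons hm
    rcases List.mem_cons.1 h with h1 | h1
    · have h2 := List.mem_of_mem_getLast? (l := l) (a := y) (by rw [hl.last]; rfl)
      rw [h1]
      exact List.mem_append_left _ h2
    · exact List.mem_append_right _ h1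

end walks

section main

variable {V : Type} {G : SimpleGraph V} {H : Type} [Group H] [MulAction H V] {Y : Type}

/-- two adjacent points, the first one with small `F0`, the second one with small `F2` -/
theorem core2 (hc : G.Connected) (ha : Aut G H) {C c k n : ℕ} {q : ℕ → V} {β : ℕ → List V}
    {i₁ i₂ : ℕ} (hP : Pol G H C c k n q β i₁ i₂) (hk : 4 * c + 8 ≤ k) {S : Set V} {π : V → Y}
    {ρ : V → ℕ} {ct : Y → V} (hct : ∀ y ∈ S, dH G H (ct (π y)) y ≤ ρ (ct (π y)))
    (hρ : ∀ v, 100 * ρ (ct v) ≤ k) {E t₁ t₂ : ℕ} (hE : E = (3 * C + 2) * k)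
    (ht1' : t₁ ≤ 6 * E) (_ht2 : 3 * E ≤ t₂)
    {u v : V} (hu : u ∈ S) (hv : v ∈ S) (huv : G.Adj u v)
    (h1u : fj G H q i₁ i₂ u ≤ E) (h1v : fj G H q i₁ i₂ v ≤ E)
    (h0 : lam (Fy G H S π q 0 i₁) (Fy G H S π q i₁ i₂) (Fy G H S π q i₂ n) t₁ t₂ (π u) = 0)
    (h2 : lam (Fy G H S π q 0 i₁) (Fy G H S π q i₁ i₂) (Fy G H S π q i₂ n) t₁ t₂ (π v) = 2) :
    False := by
  have hEk : 2 * k ≤ E := by
    rw [hE]
    exact Nat.mul_le_mul_right k (by omega)
  have l1 := hP.le1
  have l2 := hP.le2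
  have a0 := (lam_zero h0).1
  have a2 := (lam_two h2).2
  have b1 := Fy_le (G := G) (H := H) (π := π) (q := q) (a := i₁) (b := i₂) hu
  have b2 := Fy_le (G := G) (H := H) (π := π) (q := q) (a := i₁) (b := i₂) hv
  have c0 := le_Fy hc ha hct (q := q) (Nat.zero_le i₁) hu
  have c2 := le_Fy hc ha hct (q := q) l2 hv
  have d1 := hρ (π u)
  have d2 := hρ (π v)
  have e2 := fj_adj (H := H) hc ha q l2 huv
  exact no_three hc hP hE u (by omega) (by omega) (by omega)

/-- two adjacent points, the first one with small `F0`, the second one with small `F1` -/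
theorem core1 (hc : G.Connected) (ha : Aut G H) {C c k n : ℕ} {q : ℕ → V} {β : ℕ → List V}
    {i₁ i₂ : ℕ} (hP : Pol G H C c k n q β i₁ i₂) (hk : 4 * c + 8 ≤ k) {S : Set V} {π : V → Y}
    {ρ : V → ℕ} {ct : Y → V} (hct : ∀ y ∈ S, dH G H (ct (π y)) y ≤ ρ (ct (π y)))
    (hρ : ∀ v, 100 * ρ (ct v) ≤ k) {E t₁ t₂ : ℕ} (hE : E = (3 * C + 2) * k)
    (_ht1 : 3 * E ≤ t₁) (ht2' : t₂ ≤ 6 * E)
    {u v : V} (hu : u ∈ S) (hv : v ∈ S) (huv : G.Adj u v)
    (h1u : fj G H q i₂ n u ≤ E) (h1v : fj G H q i₂ n v ≤ E)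
    (h0 : lam (Fy G H S π q 0 i₁) (Fy G H S π q i₁ i₂) (Fy G H S π q i₂ n) t₁ t₂ (π u) = 0)
    (h2 : lam (Fy G H S π q 0 i₁) (Fy G H S π q i₁ i₂) (Fy G H S π q i₂ n) t₁ t₂ (π v) = 1) :
    False := by
  have hEk : 2 * k ≤ E := by
    rw [hE]
    exact Nat.mul_le_mul_right k (by omega)
  have l1 := hP.le1
  have l2 := hP.le2
  have a0 := (lam_zero h0).2
  have a2 := (lam_one h2).2
  have b1 := Fy_le (G := G) (H := H) (π := π) (q := q) (a := i₂) (b := n) hu
  have b2 := Fy_le (G := G) (H := H) (π := π) (q := q) (a := i₂) (b := n) hv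
  have c0 := le_Fy hc ha hct (q := q) (Nat.zero_le i₁) hu
  have c2 := le_Fy hc ha hct (q := q) l1 hv
  have d1 := hρ (π u)
  have d2 := hρ (π v)
  have e2 := fj_adj (H := H) hc ha q l1 huv
  exact no_three hc hP hE u (by omega) (by omega) (by omega)

/-- points of the sets of the squares are near `q i` -/
theorem near_sk (hc : G.Connected) (ha : Aut G H) {C c k n : ℕ} {q : ℕ → V}
    {β α : ℕ → List V} {i₁ i₂ : ℕ} (hP : Pol G H C c k n q β i₁ i₂) (hk : 4 * c + 8 ≤ k)
    {z : H} (hα : ∀ i, i ≤ n → IsW G (q i) (z • q i) (α i) ∧ (α i).length ≤ c + 1)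
    {E : ℕ} (hE : E = (3 * C + 2) * k) {i : ℕ} (hi : i < n) {S : Finset V}
    (hS : Fil2 G C (cat (β i) (α (i + 1))) (cat (α i) ((β i).map (z • ·))) S) {x : V}
    (hx : x ∈ S) : G.dist x (q i) ≤ E := by
  obtain ⟨hb, hb2⟩ := hP.wk i hi
  obtain ⟨ha0, ha0'⟩ := hα i (by omega)
  obtain ⟨ha1, ha1'⟩ := hα (i + 1) (by omega)
  have hzb := F72.isW_map' ha z hb
  -- lengths
  have len : ∀ {x y w : V} {l m : List V}, IsW G x y l → IsW G y w m →
      (cat l m).length + 1 = l.length + m.length := by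
    intro x y w l m _ hm
    obtain ⟨t, rfl⟩ := F72.isW_cons hm
    show (l ++ t).length + 1 = _
    rw [List.length_append, List.length_cons]
    omega
  have e1 := len hb ha1
  have e2 := len ha0 hzb
  rw [List.length_map] at e2
  obtain ⟨u, hu, hxu⟩ := hS.near x hx
  have hmul : C * ((cat (β i) (α (i + 1))).length + (cat (α i) ((β i).map (z • ·))).length) ≤
      C * (3 * k - 2 * c) := Nat.mul_le_mul_left C (by omega)
  -- the points of the walks
  have hfi := hP.fix i (by omega) z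
  have hqq := H64.dist_lt_length hb
  have hin : G.dist u (q i) ≤ k + c := by
    rcases List.mem_append.1 hu with h | h
    · rcases F72.mem_cat' h with h | h
      · have := H64.dist_mem_lt hb h
        rw [SimpleGraph.dist_comm]
        omega
      · have h1 := H64.dist_mem_lt ha1 h
        have h2 := hc.dist_triangle (u := q i) (v := q (i + 1)) (w := u)
        rw [SimpleGraph.dist_comm]
        omega
    · rcases F72.mem_cat' h with h | h
      · have := H64.dist_mem_lt ha0 h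
        rw [SimpleGraph.dist_comm]
        omega
      · have h1 := H64.dist_mem_lt hzb h
        rw [List.length_map] at h1
        have h2 := hc.dist_triangle (u := q i) (v := z • q i) (w := u)
        rw [SimpleGraph.dist_comm]
        omega
  have h3 := hc.dist_triangle (u := x) (v := u) (w := q i)
  have h4 : C * (3 * k - 2 * c) ≤ C * (3 * k) := Nat.mul_le_mul_left C (by omega)
  have h5 : E = C * (3 * k) + 2 * k := by rw [hE]; ring
  omega

end main

theorem key1_st (hTK : TkStatement) (hCNT : CntStatement) (hSP : SperStatement) :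
    Key1Statement := by
  intro V G C hC p _ H _ _ _ hA hp z hz c k n q β α i₁ i₂ hP hk hα hαn S Sm Sk hSm hSk hFm hFk
    Y _ _ π col ρ ct hCM hsur hct hρ t₁ t₂ h3 h4 h5 h6
  have hc := hC.conn
  obtain ⟨E, hE⟩ : ∃ E, E = (3 * C + 2) * k := ⟨_, rfl⟩
  have hE3 : 3 * (3 * C + 2) * k = 3 * E := by rw [hE]; ring
  have hE6 : 6 * (3 * C + 2) * k = 6 * E := by rw [hE]; ring
  rw [hE3] at h3 h5
  rw [hE6] at h4 h6
  have hEk : 2 * k ≤ E := by
    rw [hE]
    exact Nat.mul_le_mul_right k (by omega)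
  have l1 := hP.le1
  have l2 := hP.le2
  have hTk := hTK V G C hC H hA (S : Set V) Y π col hCM
  have hct' : ∀ y ∈ (S : Set V), dH G H (ct (π y)) y ≤ ρ (ct (π y)) :=
    fun y hy => hct y (Finset.mem_coe.1 hy)
  set F0 : Y → ℕ := Fy G H (S : Set V) π q 0 i₁ with hF0
  set F1 : Y → ℕ := Fy G H (S : Set V) π q i₁ i₂ with hF1
  set F2 : Y → ℕ := Fy G H (S : Set V) π q i₂ n with hF2
  set lm : Y → ℕ := lam F0 F1 F2 t₁ t₂ with hlm
  have A0 : ∀ v ∈ (S : Set V), F0 (π v) ≤ fj G H q 0 i₁ v := fun v hv => Fy_le hv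
  have A1 : ∀ v ∈ (S : Set V), F1 (π v) ≤ fj G H q i₁ i₂ v := fun v hv => Fy_le hv
  have A2 : ∀ v ∈ (S : Set V), F2 (π v) ≤ fj G H q i₂ n v := fun v hv => Fy_le hv
  have B0 : ∀ v ∈ (S : Set V), fj G H q 0 i₁ v ≤ F0 (π v) + 2 * ρ (ct (π v)) :=
    fun v hv => le_Fy hc hA hct' (Nat.zero_le i₁) hv
  have B1 : ∀ v ∈ (S : Set V), fj G H q i₁ i₂ v ≤ F1 (π v) + 2 * ρ (ct (π v)) :=
    fun v hv => le_Fy hc hA hct' l1 hv
  have B2 : ∀ v ∈ (S : Set V), fj G H q i₂ n v ≤ F2 (π v) + 2 * ρ (ct (π v)) :=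
    fun v hv => le_Fy hc hA hct' l2 hv
  -- the three parts of the closed walk
  set w0 : List V := catN β (q 0) i₁ with hw0
  set w1 : List V := catN (fun j => β (i₁ + j)) (q i₁) (i₂ - i₁) with hw1
  set w2 : List V := catN (fun j => β (i₂ + j)) (q i₂) (n - i₂) with hw2
  have hsplit : catN β (q 0) n = cat (cat w0 w1) w2 := by
    have e1 : i₁ + (i₂ - i₁) = i₂ := by omega
    have e2 : i₂ + (n - i₂) = n := by omega
    have s1 := catN_add β (q 0) (q i₁) i₁ (i₂ - i₁)
    have s2 := catN_add β (q 0) (q i₂) i₂ (n - i₂)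
    rw [e1] at s1
    rw [e2, s1] at s2
    exact s2
  have hW0 : IsW G (q 0) (q i₁) w0 :=
    F72.catN_isW (n := n) (fun i hi => (hP.wk i hi).1) i₁ (by omega)
  have hW1 : IsW G (q i₁) (q i₂) w1 := by
    have := F72.catN_isW (G := G) (n := n - i₁) (q := fun j => q (i₁ + j))
      (β := fun j => β (i₁ + j)) (fun i hi => (hP.wk (i₁ + i) (by omega)).1) (i₂ - i₁) (by omega)
    have e1 : i₁ + (i₂ - i₁) = i₂ := by omega
    simp only [e1, Nat.add_zero] at this
    exact this
  have hW2 : IsW G (q i₂) (q 0) w2 := by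
    have := F72.catN_isW (G := G) (n := n - i₂) (q := fun j => q (i₂ + j))
      (β := fun j => β (i₂ + j)) (fun i hi => (hP.wk (i₂ + i) (by omega)).1) (n - i₂) (by omega)
    have e1 : i₂ + (n - i₂) = n := by omega
    simp only [e1, Nat.add_zero] at this
    rw [← hP.clo]
    exact this
  have hin : ∀ v, v ∈ w0 ∨ v ∈ w1 ∨ v ∈ w2 → v ∈ S := by
    intro v hv
    apply hSm
    apply hFm.mem
    rw [hsplit]
    apply List.mem_append_left
    have hW01 := F72.isW_cat hW0 hW1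
    rcases hv with hv | hv | hv
    · exact mem_cat_of hW01 hW2 (Or.inl (mem_cat_of hW0 hW1 (Or.inl hv)))
    · exact mem_cat_of hW01 hW2 (Or.inl (mem_cat_of hW0 hW1 (Or.inr hv)))
    · exact mem_cat_of hW01 hW2 (Or.inr hv)
  -- the parts are near
  have hn0 : ∀ v ∈ w0, fj G H q 0 i₁ v ≤ k := by
    intro v hv
    rcases mem_catN hv with rfl | ⟨j, hj, hv⟩
    · have := fj_le (G := G) (H := H) q (Nat.zero_le 0) (Nat.zero_le i₁) (q 0)
      rw [SimpleGraph.dist_self] at this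
      omega
    · have h7 := fj_le (G := G) (H := H) q (Nat.zero_le j) hj.le v
      have h8 := H64.dist_mem_lt (hP.wk j (by omega)).1 hv
      have h9 := (hP.wk j (by omega)).2
      rw [SimpleGraph.dist_comm] at h8
      omega
  have hn1 : ∀ v ∈ w1, fj G H q i₁ i₂ v ≤ k := by
    intro v hv
    rcases mem_catN hv with rfl | ⟨j, hj, hv⟩
    · have := fj_le (G := G) (H := H) q (le_refl i₁) l1 (q i₁)
      rw [SimpleGraph.dist_self] at this
      omega
    · have h7 := fj_le (G := G) (H := H) q (Nat.le_add_right i₁ j)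
        (show i₁ + j ≤ i₂ by omega) v
      have h8 := H64.dist_mem_lt (hP.wk (i₁ + j) (by omega)).1 hv
      have h9 := (hP.wk (i₁ + j) (by omega)).2
      rw [SimpleGraph.dist_comm] at h8
      omega
  have hn2 : ∀ v ∈ w2, fj G H q i₂ n v ≤ k := by
    intro v hv
    rcases mem_catN hv with rfl | ⟨j, hj, hv⟩
    · have := fj_le (G := G) (H := H) q (le_refl i₂) l2 (q i₂)
      rw [SimpleGraph.dist_self] at this
      omega
    · have h7 := fj_le (G := G) (H := H) q (Nat.le_add_right i₂ j)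
        (show i₂ + j ≤ n by omega) v
      have h8 := H64.dist_mem_lt (hP.wk (i₂ + j) (by omega)).1 hv
      have h9 := (hP.wk (i₂ + j) (by omega)).2
      rw [SimpleGraph.dist_comm] at h8
      omega
  -- the count
  have hcnt : cnt01 (fun v => lm (π v)) (catN β (q 0) n) = 1 := by
    rw [hsplit]
    refine hCNT V G (fun v => lm (π v)) (fun x => lam_le _ _ _ _ _ _) (q 0) (q i₁) (q i₂) w0 w1
      w2 hW0 hW1 hW2 ?_ ?_ ?_ ?_
    · intro v hv
      have h7 := hn0 v hv
      have h8 := A0 v (Finset.mem_coe.2 (hin v (Or.inl hv)))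
      show lam F0 F1 F2 t₁ t₂ (π v) = 0
      unfold lam
      rw [if_pos]
      constructor <;> omega
    · intro u v huv
      obtain ⟨g1, g2, g3⟩ := pair_adj hW1 huv
      have s1 : u ∈ (S : Set V) := Finset.mem_coe.2 (hin u (Or.inr (Or.inl g2)))
      have s2 : v ∈ (S : Set V) := Finset.mem_coe.2 (hin v (Or.inr (Or.inl g3)))
      have m1 := hn1 u g2
      have m2 := hn1 v g3
      refine ⟨fun h => ?_, fun h => ?_⟩
      · exact core2 hc hA hP hk hct' hρ hE h4 h5 s1 s2 g1 (by omega) (by omega) h.1 h.2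
      · exact core2 hc hA hP hk hct' hρ hE h4 h5 s2 s1 g1.symm (by omega) (by omega) h.2 h.1
    · intro u v huv
      obtain ⟨g1, g2, g3⟩ := pair_adj hW2 huv
      have s1 : u ∈ (S : Set V) := Finset.mem_coe.2 (hin u (Or.inr (Or.inr g2)))
      have s2 : v ∈ (S : Set V) := Finset.mem_coe.2 (hin v (Or.inr (Or.inr g3)))
      have m1 := hn2 u g2
      have m2 := hn2 v g3
      refine ⟨fun h => ?_, fun h => ?_⟩
      · exact core1 hc hA hP hk hct' hρ hE h3 h6 s1 s2 g1 (by omega) (by omega) h.1 h.2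
      · exact core1 hc hA hP hk hct' hρ hE h3 h6 s2 s1 g1.symm (by omega) (by omega) h.2 h.1
    · intro h0
      obtain ⟨t, ht⟩ := F72.isW_cons hW2
      have hm2 : q i₂ ∈ w2 := by rw [ht]; exact List.mem_cons_self
      have s1 : q i₂ ∈ (S : Set V) := Finset.mem_coe.2 (hin _ (Or.inr (Or.inr hm2)))
      have a0 := (lam_zero h0).1
      have b1 := A1 _ s1
      have c0 := B0 _ s1
      have d1 := hρ (π (q i₂))
      have f1 := fj_le (G := G) (H := H) q l1 (le_refl i₂) (q i₂)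
      have f2 := fj_le (G := G) (H := H) q (le_refl i₂) l2 (q i₂)
      rw [SimpleGraph.dist_self] at f1 f2
      exact no_three hc hP hE (q i₂) (by omega) (by omega) (by omega)
  -- the fixed rainbow simplex
  obtain ⟨x, hx, y, hy, w, hw, hxy, hyw, hxw, lx, ly, lw, hfix⟩ :=
    hSP V G p H hA hp z hz (S : Set V) Y π col hCM hTk lm (by
      intro h A
      show lam F0 F1 F2 t₁ t₂ (h • A) = lam F0 F1 F2 t₁ t₂ A
      have hsur' : ∀ v : Y, ∃ x ∈ (S : Set V), π x = v := fun v => by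
        obtain ⟨x, hx, hxv⟩ := hsur v
        exact ⟨x, Finset.mem_coe.2 hx, hxv⟩
      have i0 : F0 (h • A) = F0 A := Fy_inv hc hA hCM hsur' (Nat.zero_le i₁) h A
      have i1 : F1 (h • A) = F1 A := Fy_inv hc hA hCM hsur' l1 h A
      have i2 : F2 (h • A) = F2 A := Fy_inv hc hA hCM hsur' l2 h A
      unfold lam
      rw [i0, i1, i2]) (fun y => lam_le _ _ _ _ _ _) n q β α (Sm : Set V)
      (fun i => (Sk i : Set V)) hP.clo hαn (fun i hi => (hP.wk i hi).1)
      (fun i hi => (hα i hi).1) (fun v hv => Finset.mem_coe.2 (hSm (Finset.mem_coe.1 hv)))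
      (fun v hv => Finset.mem_coe.2 (hFm.mem v (List.mem_append_left _ hv))) hFm.hom
      (by
        intro i hi
        have hb := (hP.wk i hi).1
        have ha0 := (hα i (by omega)).1
        have ha1 := (hα (i + 1) (by omega)).1
        have hzb := F72.isW_map' hA z hb
        have hF := hFk i hi
        refine ⟨fun v hv => Finset.mem_coe.2 (hSk i hi (Finset.mem_coe.1 hv)), ?_, ?_, ?_, ?_,
          hF.hom⟩
        · intro v hv
          exact Finset.mem_coe.2 (hF.mem v (List.mem_append_left _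
            (mem_cat_of hb ha1 (Or.inl hv))))
        · intro v hv
          exact Finset.mem_coe.2 (hF.mem v (List.mem_append_right _
            (mem_cat_of ha0 hzb (Or.inl hv))))
        · intro v hv
          exact Finset.mem_coe.2 (hF.mem v (List.mem_append_left _
            (mem_cat_of hb ha1 (Or.inr hv))))
        · intro v hv
          exact Finset.mem_coe.2 (hF.mem (z • v) (List.mem_append_right _
            (mem_cat_of ha0 hzb (Or.inr (List.mem_map.2 ⟨v, hv, rfl⟩))))))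
      (by
        intro i hi x hx y hy w hw hxy hyw hxw
        -- every point is near `q i`
        have hnear : ∀ v ∈ (Sk i : Set V), v ∈ (S : Set V) ∧ G.dist v (q i) ≤ E :=
          fun v hv => ⟨Finset.mem_coe.2 (hSk i hi (Finset.mem_coe.1 hv)),
            near_sk hc hA hP hk hα hE hi (hFk i hi) (Finset.mem_coe.1 hv)⟩
        -- no adjacent points with labels 0, 1 and a third one with label 2
        have hkey : ∀ a b d : V, a ∈ (Sk i : Set V) → b ∈ (Sk i : Set V) →
            d ∈ (Sk i : Set V) → G.Adj a b → G.Adj a d → lm (π a) = 0 → lm (π b) = 1 →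
            lm (π d) = 2 → False := by
          intro a b d ha hb hd hab had e0 e1 e2
          obtain ⟨sa, na⟩ := hnear a ha
          obtain ⟨sb, nb⟩ := hnear b hb
          obtain ⟨sd, nd⟩ := hnear d hd
          by_cases c1 : i ≤ i₁
          · -- near part 0
            have a1 := (lam_one e1).1
            have b1 := A0 _ sb
            have f1 := fj_le (G := G) (H := H) q (Nat.zero_le i) c1 b
            omega
          · by_cases c2 : i ≤ i₂
            · have f1 := fj_le (G := G) (H := H) q (show i₁ ≤ i by omega) c2 a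
              have f2 := fj_le (G := G) (H := H) q (show i₁ ≤ i by omega) c2 d
              exact core2 hc hA hP hk hct' hρ hE h4 h5 sa sd had (by omega) (by omega) e0 e2
            · have f1 := fj_le (G := G) (H := H) q (show i₂ ≤ i by omega) hi.le a
              have f2 := fj_le (G := G) (H := H) q (show i₂ ≤ i by omega) hi.le b
              exact core1 hc hA hP hk hct' hρ hE h3 h6 sa sb hab (by omega) (by omega) e0 e1
        by_contra hno
        push Not at hno
        obtain ⟨n1, n2, n3⟩ := hno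
        have bx := lam_le F0 F1 F2 t₁ t₂ (π x)
        have bY := lam_le F0 F1 F2 t₁ t₂ (π y)
        have bw := lam_le F0 F1 F2 t₁ t₂ (π w)
        rw [← hlm] at bx bY bw
        have hcases : (lm (π x) = 0 ∧ lm (π y) = 1 ∧ lm (π w) = 2) ∨
            (lm (π x) = 0 ∧ lm (π y) = 2 ∧ lm (π w) = 1) ∨
            (lm (π x) = 1 ∧ lm (π y) = 0 ∧ lm (π w) = 2) ∨
            (lm (π x) = 2 ∧ lm (π y) = 0 ∧ lm (π w) = 1) ∨
            (lm (π x) = 1 ∧ lm (π y) = 2 ∧ lm (π w) = 0) ∨
            (lm (π x) = 2 ∧ lm (π y) = 1 ∧ lm (π w) = 0) := by omega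
        rcases hcases with g | g | g | g | g | g
        · exact hkey x y w hx hy hw hxy hxw g.1 g.2.1 g.2.2
        · exact hkey x w y hx hw hy hxw hxy g.1 g.2.2 g.2.1
        · exact hkey y x w hy hx hw hxy.symm hyw g.2.1 g.1 g.2.2
        · exact hkey y w x hy hw hx hyw hxy.symm g.2.1 g.2.2 g.1
        · exact hkey w x y hw hx hy hxw.symm hyw.symm g.2.2 g.1 g.2.1
        · exact hkey w y x hw hy hx hyw.symm hxw.symm g.2.2 g.2.1 g.1)
      hcnt
  -- the final estimate
  have sx : x ∈ (S : Set V) := Finset.mem_coe.2 (hSm (Finset.mem_coe.1 hx))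
  have sy : y ∈ (S : Set V) := Finset.mem_coe.2 (hSm (Finset.mem_coe.1 hy))
  have sw : w ∈ (S : Set V) := Finset.mem_coe.2 (hSm (Finset.mem_coe.1 hw))
  refine ⟨x, Finset.mem_coe.1 hx, y, Finset.mem_coe.1 hy, w, Finset.mem_coe.1 hw, hxy, hyw, hxw,
    hfix, ?_⟩
  intro R r1 r2 r3
  have a0 := lam_zero lx
  have a1 := (lam_one ly).1
  have a2 := (lam_two lw).1
  have x0 := B0 _ sx
  have x1 := A1 _ sx
  have x2 := A2 _ sx
  have y0 := A0 _ sy
  have y1 := B1 _ sy
  have w0' := A0 _ sw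
  have w2' := B2 _ sw
  have g1 := fj_adj (H := H) hc hA q (Nat.zero_le i₁) hxy.symm
  have g2 := fj_adj (H := H) hc hA q l1 hxy
  have g3 := fj_adj (H := H) hc hA q (Nat.zero_le i₁) hxw.symm
  have g4 := fj_adj (H := H) hc hA q l2 hxw
  constructor
  · rw [abs_le]
    constructor <;> omega
  · rw [abs_le]
    constructor <;> omega

end MSG.F76
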